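import Pool.Agent.H40.HL.Lower

/-!
# Asymptotic form of the lower bound
-/

namespace Pool.Agent.H40.HL

open Finset Filter

/-- Some colouring with `q` colours of the `(s + 1)`-subsets of a set with `n` elements has Littlestone
dimension at most `d` and no one-coloured `k`-set. -/
def Good (s q d k n : ℕ) : Prop :=
  ∃ c : Finset (Fin n) → Fin q, LdimLE s c d ∧ NoMono s c k

/-- The same without internal tree of depth `d + 1`. -/
def GoodI (s q d k n : ℕ) : Prop :=
  ∃ c : Finset (Fin n) → Fin q, ¬ ITree s c (d + 1) (Finset.univ : Finset (Fin n)) ∧ NoMono s c k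

/-- The largest order of a colouring of Littlestone dimension at most `d` without one-coloured
`k`-set. -/
noncomputable def largest (s q d k : ℕ) : ℕ := sSup {n | Good s q d k n}

/-- The largest order of a colouring without internal tree of depth `d + 1` and without
one-coloured `k`-set. -/
noncomputable def largestI (s q d k : ℕ) : ℕ := sSup {n | GoodI s q d k n}

theorem Good.goodI {s q d k n : ℕ} (h : Good s q d k n) : GoodI s q d k n := by
  obtain ⟨c, h1, h2⟩ := h
  exact ⟨c, fun h3 => h1 h3.tree, h2⟩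

theorem GoodI.lt {s q d k n : ℕ} (h : GoodI s q d k n) :
    n < 2 * k * (2 * q * (k + 2) ^ s) ^ d := by
  obtain ⟨c, h1, h2⟩ := h
  have := upper h1 h2
  simpa using this

theorem goodI_bdd (s q d k : ℕ) : BddAbove {n | GoodI s q d k n} :=
  ⟨_, fun _ h => (GoodI.lt h).le⟩

theorem good_bdd (s q d k : ℕ) : BddAbove {n | Good s q d k n} :=
  ⟨_, fun _ h => (GoodI.lt h.goodI).le⟩

theorem good_zero {s q d k : ℕ} (hq : 1 ≤ q) (hk : 1 ≤ k) : Good s q d k 0 := by
  refine ⟨fun _ => ⟨0, hq⟩, ?_, ?_⟩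
  · intro h
    have := h.two_pow_le
    rw [Finset.card_univ, Fintype.card_fin] at this
    have h2 : 0 < 2 ^ (d + 1) := by positivity
    omega
  · intro K hK
    have := Finset.card_le_univ K
    rw [Fintype.card_fin] at this
    omega

theorem good_one {s q d k : ℕ} (hq : 1 ≤ q) (hk : 2 ≤ k) : Good s q d k 1 := by
  refine ⟨fun _ => ⟨0, hq⟩, ?_, ?_⟩
  · intro h
    have := h.two_pow_le
    rw [Finset.card_univ, Fintype.card_fin, pow_succ] at this
    have h2 : 0 < 2 ^ d := by positivity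
    omega
  · intro K hK
    have := Finset.card_le_univ K
    rw [Fintype.card_fin] at this
    omega

theorem largest_good {s q d k : ℕ} (hq : 1 ≤ q) (hk : 1 ≤ k) : Good s q d k (largest s q d k) :=
  Nat.sSup_mem ⟨0, good_zero hq hk⟩ (good_bdd s q d k)

theorem largestI_good {s q d k : ℕ} (hq : 1 ≤ q) (hk : 1 ≤ k) :
    GoodI s q d k (largestI s q d k) :=
  Nat.sSup_mem ⟨0, (good_zero hq hk).goodI⟩ (goodI_bdd s q d k)

theorem le_largest {s q d k n : ℕ} (h : Good s q d k n) : n ≤ largest s q d k :=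
  le_csSup (good_bdd s q d k) h

theorem le_largestI {s q d k n : ℕ} (h : GoodI s q d k n) : n ≤ largestI s q d k :=
  le_csSup (goodI_bdd s q d k) h

theorem largest_le_largestI {s q d k : ℕ} (hq : 1 ≤ q) (hk : 1 ≤ k) :
    largest s q d k ≤ largestI s q d k :=
  le_largestI (largest_good hq hk).goodI

theorem largestI_lt {s q d k : ℕ} (hq : 1 ≤ q) (hk : 1 ≤ k) :
    largestI s q d k < 2 * k * (2 * q * (k + 2) ^ s) ^ d :=
  (largestI_good hq hk).lt

/-- The constant in the lower bound of the binomial coefficient. -/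
noncomputable def Cs (s : ℕ) : ℝ := 2 ^ (s + 1) * (s + 1).factorial

theorem Cs_pos (s : ℕ) : 0 < Cs s := by unfold Cs; positivity

theorem choose_ge {s k : ℕ} (hk : 2 * s ≤ k) :
    (k : ℝ) ^ (s + 1) / Cs s ≤ (k.choose (s + 1) : ℝ) := by
  have h1 := Nat.pow_le_choose (α := ℝ) (s + 1) k
  have h2 : (k : ℝ) / 2 ≤ ((k + 1 - (s + 1) : ℕ) : ℝ) := by
    have h3 : k + 1 - (s + 1) = k - s := by omega
    rw [h3, Nat.cast_sub (by omega)]
    have h4 : (2 * s : ℝ) ≤ k := by exact_mod_cast hk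
    linarith
  have h3 : ((k : ℝ) / 2) ^ (s + 1) ≤ ((k + 1 - (s + 1) : ℕ) : ℝ) ^ (s + 1) :=
    pow_le_pow_left₀ (by positivity) h2 _
  have h4 : (0 : ℝ) < (s + 1).factorial := by positivity
  unfold Cs
  rw [div_pow] at h3
  have h5 : (0 : ℝ) < 2 ^ (s + 1) := by positivity
  calc (k : ℝ) ^ (s + 1) / (2 ^ (s + 1) * (s + 1).factorial)
      = ((k : ℝ) ^ (s + 1) / 2 ^ (s + 1)) / (s + 1).factorial := by rw [div_div]
    _ ≤ (((k + 1 - (s + 1) : ℕ) : ℝ) ^ (s + 1)) / (s + 1).factorial := by gcongr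
    _ ≤ _ := h1

/-- The random colouring with real parameters. -/
theorem random_real (s : ℕ) (γ : ℝ) (hγ0 : 0 < γ) (hγs : γ < s) : ∃ k0 : ℕ, ∀ k : ℕ, k0 ≤ k →
    ∀ q : ℕ, 2 ≤ q → ∀ N a u d : ℕ, a + u = d + 1 → 1 ≤ N →
    Real.log N ≤ (k : ℝ) ^ γ / (8 * Cs s) →
    ((s : ℝ) * a + 2 ^ u) * Real.log N + 2 ≤ a * 2 ^ u * ((s - γ) * Real.log k) →
    Good s q d k N := by
  have hC := Cs_pos s
  have hlim : Tendsto (fun k : ℕ => (k : ℝ) ^ (1 + γ)) atTop atTop :=
    (tendsto_rpow_atTop (by linarith)).comp tendsto_natCast_atTop_atTop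
  have hlim2 : Tendsto (fun k : ℕ => (k : ℝ) ^ ((s : ℝ) - γ)) atTop atTop :=
    (tendsto_rpow_atTop (by linarith)).comp tendsto_natCast_atTop_atTop
  obtain ⟨k1, hk1⟩ := Filter.eventually_atTop.1 (hlim.eventually_ge_atTop (4 * Cs s * 2))
  obtain ⟨k2, hk2⟩ := Filter.eventually_atTop.1 (hlim2.eventually_ge_atTop 2)
  refine ⟨max (max k1 k2) (2 * s + 2), ?_⟩
  intro k hk q hq N a u d hau hN hlog hcond
  have hkk1 : k1 ≤ k := le_trans (le_trans (le_max_left _ _) (le_max_left _ _)) hk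
  have hkk2 : k2 ≤ k := le_trans (le_trans (le_max_right _ _) (le_max_left _ _)) hk
  have hks : 2 * s + 2 ≤ k := le_trans (le_max_right _ _) hk
  have hkpos : (0 : ℝ) < k := by exact_mod_cast (by omega : 0 < k)
  have hX2 := hk2 k hkk2
  set X : ℕ := ⌈(k : ℝ) ^ ((s : ℝ) - γ)⌉₊ with hX
  have hXge : (k : ℝ) ^ ((s : ℝ) - γ) ≤ X := Nat.le_ceil _
  have hXle : (X : ℝ) ≤ 2 * (k : ℝ) ^ ((s : ℝ) - γ) := by
    have h1 := (Nat.ceil_lt_add_one (le_trans (by norm_num) hX2 :
      (0 : ℝ) ≤ (k : ℝ) ^ ((s : ℝ) - γ))).le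
    linarith
  have hX2' : 2 ≤ X := by
    have : (2 : ℝ) ≤ X := le_trans hX2 hXge
    exact_mod_cast this
  obtain ⟨m, hm⟩ : ∃ m, X = m + 1 := ⟨X - 1, by omega⟩
  have hm1 : 1 ≤ m := by omega
  have hNpos : (0 : ℝ) < N := by exact_mod_cast hN
  have hlogN : 0 ≤ Real.log N := Real.log_natCast_nonneg N
  have hmpos : (0 : ℝ) < m := by exact_mod_cast hm1
  have hl3 : Real.log 3 < 2 := by
    have h1 : Real.log 3 ≤ Real.log 4 := Real.log_le_log (by norm_num) (by norm_num)
    have h2 : Real.log 4 = 2 * Real.log 2 := by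
      rw [show (4 : ℝ) = 2 ^ 2 by norm_num, Real.log_pow]; norm_num
    have := Real.log_two_lt_d9
    linarith
  set Mk : ℕ := k.choose (s + 1) with hMk
  -- first condition
  have c1 : 3 * (N ^ k * m ^ Mk) < (m + 1) ^ Mk := by
    have hMkge : (k : ℝ) ^ (1 + γ) / (2 * Cs s) ≤ (Mk : ℝ) / X := by
      rw [div_le_div_iff₀ (by positivity) (by positivity)]
      have h1 := choose_ge (s := s) (k := k) (by omega)
      rw [div_le_iff₀ hC] at h1
      have h2 : (k : ℝ) ^ (1 + γ) * (2 * (k : ℝ) ^ ((s : ℝ) - γ)) = 2 * (k : ℝ) ^ (s + 1) := by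
        rw [show (k : ℝ) ^ (1 + γ) * (2 * (k : ℝ) ^ ((s : ℝ) - γ)) =
          2 * ((k : ℝ) ^ (1 + γ) * (k : ℝ) ^ ((s : ℝ) - γ)) by ring, ← Real.rpow_add hkpos]
        congr 1
        rw [← Real.rpow_natCast]
        congr 1
        push_cast
        ring
      calc (k : ℝ) ^ (1 + γ) * X ≤ (k : ℝ) ^ (1 + γ) * (2 * (k : ℝ) ^ ((s : ℝ) - γ)) :=
            mul_le_mul_of_nonneg_left hXle (by positivity)
        _ = 2 * (k : ℝ) ^ (s + 1) := h2
        _ ≤ 2 * ((Mk : ℝ) * Cs s) := by linarith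
        _ = (Mk : ℝ) * (2 * Cs s) := by ring
    have hmain : Real.log 3 + k * Real.log N < (Mk : ℝ) / X := by
      have h1 := hk1 k hkk1
      have h2 : (k : ℝ) ^ (1 + γ) = k * (k : ℝ) ^ γ := by
        rw [Real.rpow_add hkpos, Real.rpow_one]
      have h3 : k * Real.log N ≤ (k : ℝ) ^ (1 + γ) / (8 * Cs s) := by
        rw [h2, mul_div_assoc]
        exact mul_le_mul_of_nonneg_left hlog hkpos.le
      have h4 : (2 : ℝ) ≤ (k : ℝ) ^ (1 + γ) / (4 * Cs s) := by
        rw [le_div_iff₀ (by positivity)]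
        linarith
      have h5 : (k : ℝ) ^ (1 + γ) / (2 * Cs s) = (k : ℝ) ^ (1 + γ) / (4 * Cs s) +
          2 * ((k : ℝ) ^ (1 + γ) / (8 * Cs s)) := by
        field_simp
        ring
      have h6 : 0 ≤ (k : ℝ) ^ (1 + γ) / (8 * Cs s) := by positivity
      linarith
    have hXm : (X : ℝ) = m + 1 := by rw [hm]; push_cast; ring
    have hlt : Real.log (3 * ((N : ℝ) ^ k * (m : ℝ) ^ Mk)) < Real.log (((m : ℝ) + 1) ^ Mk) := by
      rw [Real.log_mul (by norm_num) (by positivity), Real.log_mul (by positivity) (by positivity),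
        Real.log_pow, Real.log_pow, Real.log_pow]
      have h1 : Real.log (m : ℝ) ≤ Real.log ((m : ℝ) + 1) - 1 / X := by
        have h2 : Real.log ((m : ℝ) / (m + 1)) ≤ (m : ℝ) / (m + 1) - 1 :=
          Real.log_le_sub_one_of_pos (by positivity)
        rw [Real.log_div (by positivity) (by positivity)] at h2
        have h3 : (m : ℝ) / (m + 1) - 1 = - (1 / X) := by
          rw [hXm]; field_simp; ring
        linarith
      have h2 : (Mk : ℝ) * Real.log m ≤ Mk * (Real.log ((m : ℝ) + 1) - 1 / X) :=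
        mul_le_mul_of_nonneg_left h1 (by positivity)
      have h3 : (Mk : ℝ) * (1 / X) = Mk / X := by ring
      nlinarith
    have h7 := (Real.log_lt_log_iff (by positivity) (by positivity)).1 hlt
    exact_mod_cast h7
  have c3 : 3 * N ^ (s * a + 2 ^ u) < (m + 1) ^ (a * 2 ^ u) := by
    have hXm : (X : ℝ) = m + 1 := by rw [hm]; push_cast; ring
    have hlt : Real.log (3 * (N : ℝ) ^ (s * a + 2 ^ u)) <
        Real.log (((m : ℝ) + 1) ^ (a * 2 ^ u)) := by
      rw [Real.log_mul (by norm_num) (by positivity), Real.log_pow, Real.log_pow]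
      push_cast
      have h1 : (s - γ) * Real.log k ≤ Real.log ((m : ℝ) + 1) := by
        rw [← Real.log_rpow hkpos, ← hXm]
        exact Real.log_le_log (by positivity) hXge
      have h2 : (a : ℝ) * 2 ^ u * ((s - γ) * Real.log k) ≤
          (a : ℝ) * 2 ^ u * Real.log ((m : ℝ) + 1) := mul_le_mul_of_nonneg_left h1 (by positivity)
      linarith
    have h7 := (Real.log_lt_log_iff (by positivity) (by positivity)).1 hlt
    exact_mod_cast h7
  have h01 : (⟨0, by omega⟩ : Fin q) ≠ ⟨1, by omega⟩ := by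
    intro h
    have := congrArg Fin.val h
    simp at this
  obtain ⟨c, _, hc2, hc3⟩ := random N k m s a u h01 (by omega) c1 hm1 c3
  refine ⟨c, ?_, hc2⟩
  unfold LdimLE
  rw [← hau]
  exact hc3

end Pool.Agent.H40.HL
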