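import Mathlib

/-!
# Littlestone dimension of hypergraph colourings

A colouring of the `(s + 1)`-element subsets of a finite set `V` is a function `c : Finset V → κ` of
which only the values at sets with `s + 1` elements matter.
-/

namespace Pool.Agent.H40.HL

open Finset

variable {V κ : Type*} [DecidableEq V] [DecidableEq κ]

/-- The vertices `x` of `S` outside of `e` such that `e ∪ {x}` has the colour `a`. -/
def part (c : Finset V → κ) (S e : Finset V) (a : κ) : Finset V :=
  S.filter (fun x => x ∉ e ∧ c (insert x e) = a)

/-- `Tree s c t S`: there is a complete binary tree of depth `t` whose inner nodes are `s`-sets `e`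
of vertices, each with two different colours for the two edges to its children, and whose leaves are
vertices `x` of `S` such that for every inner node `e` above `x` the vertex `x` is not in `e` and the
set `e ∪ {x}` has the colour of the edge at `e` on the path to `x`. -/
def Tree (s : ℕ) (c : Finset V → κ) : ℕ → Finset V → Prop
  | 0, S => S.Nonempty
  | t + 1, S => ∃ e : Finset V, e.card = s ∧ ∃ a b : κ, a ≠ b ∧
      Tree s c t (part c S e a) ∧ Tree s c t (part c S e b)

/-- `ITree s c t S`: as `Tree s c t S`, but also the vertices of the inner nodes `e` are in `S`, and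
they have to the inner nodes above `e` the same relation as the leaves: if `f` is an inner node above
`e` then every `x ∈ e` is not in `f` and `f ∪ {x}` has the colour of the path to `e` at `f`. -/
def ITree (s : ℕ) (c : Finset V → κ) : ℕ → Finset V → Prop
  | 0, S => S.Nonempty
  | t + 1, S => ∃ e ⊆ S, e.card = s ∧ ∃ a b : κ, a ≠ b ∧
      ITree s c t (part c S e a) ∧ ITree s c t (part c S e b)

/-- The Littlestone dimension of the colouring `c` of the `(s + 1)`-sets is at most `d`. -/
def LdimLE [Fintype V] (s : ℕ) (c : Finset V → κ) (d : ℕ) : Prop :=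
  ¬ Tree s c (d + 1) (Finset.univ : Finset V)

/-- No `k` vertices have all their `(s + 1)`-subsets of the same colour. -/
def NoMono (s : ℕ) (c : Finset V → κ) (k : ℕ) : Prop :=
  ∀ K : Finset V, K.card = k → ¬ ∃ a : κ, ∀ g ⊆ K, g.card = s + 1 → c g = a

theorem part_subset (c : Finset V → κ) (S e : Finset V) (a : κ) : part c S e a ⊆ S :=
  Finset.filter_subset _ _

theorem part_mono (c : Finset V → κ) {S T : Finset V} (h : S ⊆ T) (e : Finset V) (a : κ) :
    part c S e a ⊆ part c T e a :=
  Finset.filter_subset_filter _ h

theorem part_disj (c : Finset V → κ) (S e : Finset V) {a b : κ} (hab : a ≠ b) :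
    Disjoint (part c S e a) (part c S e b) := by
  rw [Finset.disjoint_left]
  intro x hx hy
  simp only [part, Finset.mem_filter] at hx hy
  exact hab (hx.2.2.symm.trans hy.2.2)

theorem Tree.mono {s : ℕ} {c : Finset V → κ} {t : ℕ} {S T : Finset V} (h : S ⊆ T)
    (hS : Tree s c t S) : Tree s c t T := by
  induction t generalizing S T with
  | zero => exact Finset.Nonempty.mono h hS
  | succ t ih =>
    obtain ⟨e, he, a, b, hab, h1, h2⟩ := hS
    exact ⟨e, he, a, b, hab, ih (part_mono c h e a) h1, ih (part_mono c h e b) h2⟩

theorem Tree.pred {s : ℕ} {c : Finset V → κ} {t : ℕ} {S : Finset V}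
    (hS : Tree s c (t + 1) S) : Tree s c t S := by
  obtain ⟨e, he, a, b, hab, h1, h2⟩ := hS
  exact h1.mono (part_subset c S e a)

theorem Tree.anti {s : ℕ} {c : Finset V → κ} {t u : ℕ} (h : u ≤ t) {S : Finset V}
    (hS : Tree s c t S) : Tree s c u S := by
  induction t with
  | zero => simpa [Nat.le_zero.mp h] using hS
  | succ t ih =>
    rcases Nat.lt_or_ge u (t + 1) with h1 | h1
    · exact ih (Nat.lt_succ_iff.mp h1) hS.pred
    · have : u = t + 1 := le_antisymm h h1
      rw [this]; exact hS

theorem Tree.two_pow_le {s : ℕ} {c : Finset V → κ} {t : ℕ} {S : Finset V}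
    (hS : Tree s c t S) : 2 ^ t ≤ S.card := by
  induction t generalizing S with
  | zero => exact Finset.card_pos.mpr hS
  | succ t ih =>
    obtain ⟨e, he, a, b, hab, h1, h2⟩ := hS
    have h3 := ih h1
    have h4 := ih h2
    have h5 : (part c S e a).card + (part c S e b).card ≤ S.card := by
      rw [← Finset.card_union_of_disjoint (part_disj c S e hab)]
      exact Finset.card_le_card
        (Finset.union_subset (part_subset c S e a) (part_subset c S e b))
    rw [pow_succ]; omega

theorem Tree.nonempty {s : ℕ} {c : Finset V → κ} {t : ℕ} {S : Finset V}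
    (hS : Tree s c t S) : S.Nonempty :=
  Finset.card_pos.mp (lt_of_lt_of_le (by positivity) hS.two_pow_le)

theorem ITree.tree {s : ℕ} {c : Finset V → κ} {t : ℕ} {S : Finset V}
    (hS : ITree s c t S) : Tree s c t S := by
  induction t generalizing S with
  | zero => exact hS
  | succ t ih =>
    obtain ⟨e, _, he, a, b, hab, h1, h2⟩ := hS
    exact ⟨e, he, a, b, hab, ih h1, ih h2⟩

theorem ITree.mono {s : ℕ} {c : Finset V → κ} {t : ℕ} {S T : Finset V} (h : S ⊆ T)
    (hS : ITree s c t S) : ITree s c t T := by
  induction t generalizing S T with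
  | zero => exact Finset.Nonempty.mono h hS
  | succ t ih =>
    obtain ⟨e, heS, he, a, b, hab, h1, h2⟩ := hS
    exact ⟨e, heS.trans h, he, a, b, hab, ih (part_mono c h e a) h1, ih (part_mono c h e b) h2⟩

theorem ITree.pred {s : ℕ} {c : Finset V → κ} {t : ℕ} {S : Finset V}
    (hS : ITree s c (t + 1) S) : ITree s c t S := by
  obtain ⟨e, _, he, a, b, hab, h1, h2⟩ := hS
  exact h1.mono (part_subset c S e a)

theorem ITree.anti {s : ℕ} {c : Finset V → κ} {t u : ℕ} (h : u ≤ t) {S : Finset V}
    (hS : ITree s c t S) : ITree s c u S := by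
  induction t with
  | zero => simpa [Nat.le_zero.mp h] using hS
  | succ t ih =>
    rcases Nat.lt_or_ge u (t + 1) with h1 | h1
    · exact ih (Nat.lt_succ_iff.mp h1) hS.pred
    · have : u = t + 1 := le_antisymm h h1
      rw [this]; exact hS

open Classical in
/-- The largest depth of an internal tree in `S` (`0` for the empty set). -/
noncomputable def dim (s : ℕ) (c : Finset V → κ) (S : Finset V) : ℕ :=
  Nat.findGreatest (fun t => ITree s c t S) S.card

theorem itree_dim {s : ℕ} {c : Finset V → κ} {S : Finset V} (h : S.Nonempty) :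
    ITree s c (dim s c S) S := by
  classical
  exact Nat.findGreatest_spec (P := fun t => ITree s c t S) (Nat.zero_le _) (by exact h)

theorem ITree.le_dim {s : ℕ} {c : Finset V → κ} {t : ℕ} {S : Finset V}
    (hS : ITree s c t S) : t ≤ dim s c S := by
  classical
  refine Nat.le_findGreatest ?_ hS
  exact le_trans (Nat.le_of_lt Nat.lt_two_pow_self) hS.tree.two_pow_le

theorem dim_lt_of_part {s : ℕ} {c : Finset V → κ} {S e : Finset V} (heS : e ⊆ S)
    (he : e.card = s) {a b : κ}
    (hab : a ≠ b) (ha : (part c S e a).Nonempty) (hb : (part c S e b).Nonempty) :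
    dim s c (part c S e a) < dim s c S ∨ dim s c (part c S e b) < dim s c S := by
  by_contra hcon
  push Not at hcon
  have h1 := (itree_dim (s := s) (c := c) ha).anti hcon.1
  have h2 := (itree_dim (s := s) (c := c) hb).anti hcon.2
  have h3 : ITree s c (dim s c S + 1) S := ⟨e, heS, he, a, b, hab, h1, h2⟩
  have h4 := h3.le_dim
  omega

end Pool.Agent.H40.HL
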