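import Pool.Agent.H40.HL.Asy

/-!
# The two asymptotic theorems
-/

namespace Pool.Agent.H40.HL

open Finset Filter

/-- Upper bound, in logarithmic form. -/
theorem log_largestI_le {s q d k : ℕ} (hq : 1 ≤ q) (hk : 1 ≤ k) :
    Real.log (largestI s q d k) ≤
      Real.log (2 * k) + d * (Real.log (2 * q) + s * Real.log (k + 2)) := by
  have h1 := largestI_lt (s := s) (d := d) hq hk
  have hkp : (0 : ℝ) < k := by exact_mod_cast hk
  have hqp : (0 : ℝ) < q := by exact_mod_cast hq
  rcases Nat.eq_zero_or_pos (largestI s q d k) with h0 | h0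
  · rw [h0, Nat.cast_zero, Real.log_zero]
    have h2 : 0 ≤ Real.log (2 * k) := Real.log_nonneg (by
      have : (1 : ℝ) ≤ k := by exact_mod_cast hk
      linarith)
    have h3 : 0 ≤ Real.log (2 * q) := Real.log_nonneg (by
      have : (1 : ℝ) ≤ q := by exact_mod_cast hq
      linarith)
    have h4 : 0 ≤ Real.log ((k : ℝ) + 2) := Real.log_nonneg (by linarith)
    positivity
  · have h2 : (largestI s q d k : ℝ) ≤ 2 * k * (2 * q * ((k : ℝ) + 2) ^ s) ^ d := by
      exact_mod_cast h1.le
    have h3 : (0 : ℝ) < largestI s q d k := by exact_mod_cast h0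
    have h4 := Real.log_le_log h3 h2
    have h5 : Real.log (2 * k * (2 * q * ((k : ℝ) + 2) ^ s) ^ d) =
        Real.log (2 * k) + d * (Real.log (2 * q) + s * Real.log (k + 2)) := by
      rw [Real.log_mul (x := 2 * (k : ℝ)) (by positivity) (by positivity), Real.log_pow,
        Real.log_mul (x := 2 * (q : ℝ)) (by positivity) (by positivity), Real.log_pow]
    rw [h5] at h4
    exact h4

/-- **Sharp asymptotics.** -/
theorem sharp (s q : ℕ) (hs : 1 ≤ s) (hq : 2 ≤ q) (δ : ℝ) (hδ : 0 < δ) (hδ1 : δ ≤ 1) :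
    ∃ η : ℝ, 0 < η ∧ ∃ D : ℕ, ∀ d k : ℕ, D ≤ d → (d : ℝ) ≤ (k : ℝ) ^ η →
      (s - δ) * d * Real.log k ≤ Real.log (largest s q d k) ∧
      Real.log (largestI s q d k) ≤ (s + δ) * d * Real.log k := by
  have hsp : (1 : ℝ) ≤ s := by exact_mod_cast hs
  have hqp : (2 : ℝ) ≤ q := by exact_mod_cast hq
  have hC := Cs_pos s
  set γ : ℝ := δ / 8 with hγ
  set ρ : ℝ := δ / (8 * s) with hρ
  have hγ0 : 0 < γ := by positivity
  have hγs : γ < s := by rw [hγ]; linarith
  have hρ0 : 0 < ρ := by positivity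
  have hρs : ρ * s = δ / 8 := by rw [hρ]; field_simp
  have hρ1 : ρ ≤ 1 / 8 := by
    rw [hρ, div_le_iff₀ (by positivity)]; linarith
  obtain ⟨k0, hk0⟩ := random_real s γ hγ0 hγs
  set lam : ℝ := s - δ / 2 with hlam
  have hlam0 : 0 < lam := by rw [hlam]; linarith
  set M : ℕ := ⌈(s : ℝ) / ρ⌉₊ with hM
  have hMge : (s : ℝ) / ρ ≤ M := Nat.le_ceil _
  have hMpos : 1 ≤ M := by
    have : (0 : ℝ) < M := lt_of_lt_of_le (by positivity) hMge
    exact_mod_cast this
  -- eventual facts in `k`
  have ev1 : ∀ᶠ k : ℕ in atTop, (s : ℝ) * (k : ℝ) ^ (γ / 2) * Real.log k ≤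
      (k : ℝ) ^ γ / (8 * Cs s) := by
    have h1 := isLittleO_log_rpow_atTop (show (0 : ℝ) < γ / 2 by positivity)
    have h2 := (h1.bound (show (0 : ℝ) < 1 / (s * (8 * Cs s)) by positivity))
    have h3 := tendsto_natCast_atTop_atTop (R := ℝ) |>.eventually h2
    filter_upwards [h3, eventually_ge_atTop 1] with k hk hk1
    have hkp : (0 : ℝ) < k := by exact_mod_cast hk1
    rw [Real.norm_of_nonneg (Real.log_natCast_nonneg k), Real.norm_of_nonneg (by positivity)] at hk
    have h4 : (k : ℝ) ^ γ = (k : ℝ) ^ (γ / 2) * (k : ℝ) ^ (γ / 2) := by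
      rw [← Real.rpow_add hkp]; congr 1; ring
    rw [h4]
    have h5 : (s : ℝ) * (k : ℝ) ^ (γ / 2) * Real.log k ≤ (s : ℝ) * (k : ℝ) ^ (γ / 2) *
        (1 / (s * (8 * Cs s)) * (k : ℝ) ^ (γ / 2)) := mul_le_mul_of_nonneg_left hk (by positivity)
    refine h5.trans (le_of_eq ?_)
    field_simp
  have hlogk : Tendsto (fun k : ℕ => Real.log k) atTop atTop :=
    Real.tendsto_log_atTop.comp tendsto_natCast_atTop_atTop
  have ev2 : ∀ᶠ k : ℕ in atTop, 16 / δ + 6 * Real.log (2 * q) / δ + 6 * s / δ ≤ Real.log k :=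
    hlogk.eventually_ge_atTop _
  obtain ⟨k1, hk1⟩ := Filter.eventually_atTop.1 (ev1.and ev2)
  -- eventual facts in `d`
  have ev3 : ∀ᶠ d : ℕ in atTop, ((Nat.clog 2 (M * d) : ℕ) : ℝ) ≤ ρ * d := by
    have h1 : Tendsto (fun d : ℕ => Real.log d) atTop atTop := hlogk
    have h2 := (Real.isLittleO_log_id_atTop.bound (show (0 : ℝ) < ρ * Real.log 2 / 2 by
      have := Real.log_pos (show (1 : ℝ) < 2 by norm_num); positivity))
    have h3 := tendsto_natCast_atTop_atTop (R := ℝ) |>.eventually h2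
    filter_upwards [h3, eventually_ge_atTop 1,
      eventually_ge_atTop (⌈(Real.log M / Real.log 2 + 1) / (ρ / 2)⌉₊)] with d hd hd1 hd2
    have hdp : (0 : ℝ) < d := by exact_mod_cast hd1
    have hl2 := Real.log_pos (show (1 : ℝ) < 2 by norm_num)
    have hMd : 0 < M * d := Nat.mul_pos hMpos hd1
    have hMp : (0 : ℝ) < M := by exact_mod_cast hMpos
    rw [Real.norm_of_nonneg (Real.log_natCast_nonneg d)] at hd
    simp only [id, Real.norm_of_nonneg hdp.le] at hd
    have h4 : ((Nat.clog 2 (M * d) : ℕ) : ℝ) ≤ Real.log (M * d) / Real.log 2 + 1 := by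
      rcases Nat.lt_or_ge 1 (M * d) with h5 | h5
      · have h6 := Nat.pow_pred_clog_lt_self (b := 2) (by norm_num) h5
        have h7 : ((2 : ℝ)) ^ (Nat.clog 2 (M * d)).pred ≤ M * d := by exact_mod_cast h6.le
        have h8 := Real.log_le_log (by positivity) h7
        rw [Real.log_pow] at h8
        have h9 : 0 < Nat.clog 2 (M * d) := Nat.clog_pos (by norm_num) h5
        have h10 : (((Nat.clog 2 (M * d)).pred : ℕ) : ℝ) = (Nat.clog 2 (M * d) : ℝ) - 1 := by
          rw [Nat.pred_eq_sub_one, Nat.cast_sub h9]; norm_num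
        rw [h10] at h8
        rw [← sub_le_iff_le_add, le_div_iff₀ hl2]
        exact h8
      · have h6 : M * d = 1 := le_antisymm h5 hMd
        rw [h6]
        simp only [Nat.clog_one_right, Nat.cast_zero]
        have h7 : ((M : ℝ) * d) = 1 := by exact_mod_cast h6
        rw [h7]
        simp
    rw [Real.log_mul (by positivity) (by positivity)] at h4
    have h5 : (Real.log M / Real.log 2 + 1) / (ρ / 2) ≤ d :=
      (Nat.le_ceil _).trans (by exact_mod_cast hd2)
    rw [div_le_iff₀ (by positivity)] at h5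
    have h6 : Real.log d / Real.log 2 ≤ ρ * d / 2 := by
      rw [div_le_iff₀ hl2]
      linarith
    rw [add_div] at h4
    linarith
  obtain ⟨D1, hD1⟩ := Filter.eventually_atTop.1 ev3
  set K : ℕ := max (max k0 k1) 3 with hK
  refine ⟨γ / 2, by positivity, max (max D1 (⌈6 / δ⌉₊ + 1)) (K + 2), ?_⟩
  intro d k hd hdk
  have hdD1 : D1 ≤ d := le_trans (le_trans (le_max_left _ _) (le_max_left _ _)) hd
  have hd6 : ⌈6 / δ⌉₊ + 1 ≤ d := le_trans (le_trans (le_max_right _ _) (le_max_left _ _)) hd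
  have hdK : K + 2 ≤ d := le_trans (le_max_right _ _) hd
  have hd1 : 1 ≤ d := by omega
  have hdp : (1 : ℝ) ≤ d := by exact_mod_cast hd1
  have hk1' : 1 ≤ k := by
    rcases Nat.eq_zero_or_pos k with h | h
    · exfalso
      rw [h, Nat.cast_zero, Real.zero_rpow (by positivity)] at hdk
      linarith
    · exact h
  have hkd : (d : ℝ) ≤ k := by
    refine hdk.trans ?_
    have hk1r : (1 : ℝ) ≤ k := by exact_mod_cast hk1'
    calc (k : ℝ) ^ (γ / 2) ≤ (k : ℝ) ^ (1 : ℝ) :=
          Real.rpow_le_rpow_of_exponent_le hk1r (by rw [hγ]; linarith)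
      _ = k := Real.rpow_one _
  have hkd' : d ≤ k := by exact_mod_cast hkd
  have hkk0 : k0 ≤ k := by
    have : k0 ≤ K := le_trans (le_max_left _ _) (le_max_left _ _)
    omega
  have hkk1 : k1 ≤ k := by
    have : k1 ≤ K := le_trans (le_max_right _ _) (le_max_left _ _)
    omega
  have hk3 : 3 ≤ k := by
    have : 3 ≤ K := le_max_right _ _
    omega
  have hkp : (0 : ℝ) < k := by exact_mod_cast hk1'
  obtain ⟨hev1, hev2⟩ := hk1 k hkk1
  have hlq : 0 ≤ Real.log (2 * q) := Real.log_nonneg (by linarith)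
  have hlk16 : 16 / δ ≤ Real.log k := by
    have h1 : 0 ≤ 6 * Real.log (2 * q) / δ := by positivity
    have h2 : 0 ≤ 6 * (s : ℝ) / δ := by positivity
    linarith
  have hlkpos : 0 < Real.log k := lt_of_lt_of_le (by positivity) hlk16
  constructor
  · -- lower bound
    set u : ℕ := Nat.clog 2 (M * d) with hu
    have hu1 : (u : ℝ) ≤ ρ * d := hD1 d hdD1
    have hu2 : M * d ≤ 2 ^ u := Nat.le_pow_clog (by norm_num) _
    have hupos : 1 ≤ u := by
      have h1 : 2 ≤ M * d := le_trans (by omega : 2 ≤ d) (Nat.le_mul_of_pos_left _ hMpos)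
      exact Nat.clog_pos (by norm_num) h1
    have hud : u ≤ d := by
      have h1 : (u : ℝ) ≤ d := hu1.trans (by nlinarith)
      exact_mod_cast h1
    set a : ℕ := d + 1 - u with ha
    have hau : a + u = d + 1 := by omega
    have haR : (a : ℝ) = d + 1 - u := by
      have : (a : ℝ) + u = d + 1 := by exact_mod_cast hau
      linarith
    set N : ℕ := ⌊Real.exp (lam * d * Real.log k)⌋₊ with hN
    have hexp1 : 1 ≤ Real.exp (lam * d * Real.log k) := Real.one_le_exp (by positivity)
    have hN1 : 1 ≤ N := (Nat.one_le_floor_iff _).2 hexp1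
    have hNp : (0 : ℝ) < N := by exact_mod_cast hN1
    have hNle : (N : ℝ) ≤ Real.exp (lam * d * Real.log k) := Nat.floor_le (by positivity)
    have hNge : Real.exp (lam * d * Real.log k) / 2 ≤ N := by
      have h1 := Nat.lt_floor_add_one (Real.exp (lam * d * Real.log k))
      have h2 : (1 : ℝ) ≤ N := by exact_mod_cast hN1
      rw [← hN] at h1
      linarith
    have hlogNle : Real.log N ≤ lam * d * Real.log k := by
      rw [← Real.log_exp (lam * d * Real.log k)]
      exact Real.log_le_log hNp hNle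
    have hlogNge : lam * d * Real.log k - 1 ≤ Real.log N := by
      have h1 := Real.log_le_log (by positivity) hNge
      rw [Real.log_div (by positivity) (by norm_num), Real.log_exp] at h1
      have := Real.log_two_lt_d9
      linarith
    have hlogN0 : 0 ≤ Real.log N := Real.log_natCast_nonneg N
    have hgood : Good s q d k N := by
      refine hk0 k hkk0 q hq N a u d hau hN1 ?_ ?_
      · refine hlogNle.trans (le_trans ?_ hev1)
        have h1 : lam * d ≤ s * (k : ℝ) ^ (γ / 2) :=
          mul_le_mul (by rw [hlam]; linarith) hdk (by positivity) (by positivity)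
        exact mul_le_mul_of_nonneg_right h1 hlkpos.le
      · have h2u : (0 : ℝ) < 2 ^ u := by positivity
        have hMd : (s : ℝ) / ρ * d ≤ 2 ^ u := by
          calc (s : ℝ) / ρ * d ≤ M * d := mul_le_mul_of_nonneg_right hMge (by positivity)
            _ ≤ 2 ^ u := by exact_mod_cast hu2
        have had : (a : ℝ) ≤ d := by
          rw [haR]
          have : (1 : ℝ) ≤ u := by exact_mod_cast hupos
          linarith
        have h1 : (s : ℝ) * a ≤ ρ * 2 ^ u := by
          have h2 : (s : ℝ) * d ≤ ρ * 2 ^ u := by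
            calc (s : ℝ) * d = ρ * ((s : ℝ) / ρ * d) := by field_simp
              _ ≤ ρ * 2 ^ u := mul_le_mul_of_nonneg_left hMd hρ0.le
          exact le_trans (mul_le_mul_of_nonneg_left had (by positivity)) h2
        have ha2 : (1 - ρ) * d ≤ a := by rw [haR]; nlinarith
        have hk2 : (2 : ℝ) ≤ 2 ^ u * d * (δ / 8 * Real.log k) := by
          have h3 : 2 ≤ δ / 8 * Real.log k := by
            rw [div_le_iff₀ hδ] at hlk16
            nlinarith
          have h4 : (1 : ℝ) ≤ 2 ^ u * d := by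
            have : (1 : ℝ) ≤ 2 ^ u := one_le_pow₀ (by norm_num)
            nlinarith
          nlinarith
        have key : (1 + ρ) * lam + δ / 8 ≤ (1 - ρ) * (s - γ) := by
          rw [hlam, hγ]
          nlinarith
        calc ((s : ℝ) * a + 2 ^ u) * Real.log N + 2
            ≤ ((1 + ρ) * 2 ^ u) * (lam * d * Real.log k) + 2 ^ u * d * (δ / 8 * Real.log k) := by
              have h5 : ((s : ℝ) * a + 2 ^ u) * Real.log N ≤
                  ((1 + ρ) * 2 ^ u) * (lam * d * Real.log k) :=
                mul_le_mul (by linarith) hlogNle hlogN0 (by positivity)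
              linarith
          _ = 2 ^ u * d * Real.log k * ((1 + ρ) * lam + δ / 8) := by ring
          _ ≤ 2 ^ u * d * Real.log k * ((1 - ρ) * (s - γ)) :=
              mul_le_mul_of_nonneg_left key (by positivity)
          _ = ((1 - ρ) * d) * (2 ^ u * ((s - γ) * Real.log k)) := by ring
          _ ≤ a * (2 ^ u * ((s - γ) * Real.log k)) := by
              refine mul_le_mul_of_nonneg_right ha2 ?_
              have : 0 ≤ (s : ℝ) - γ := by linarith
              positivity
          _ = a * 2 ^ u * ((s - γ) * Real.log k) := by ring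
    have h1 : (N : ℝ) ≤ largest s q d k := by exact_mod_cast le_largest hgood
    have h2 := Real.log_le_log hNp h1
    have h3 : 1 ≤ δ / 2 * (d * Real.log k) := by
      have h4 : 16 ≤ Real.log k * δ := by rwa [div_le_iff₀ hδ] at hlk16
      nlinarith
    calc (s - δ) * d * Real.log k = lam * d * Real.log k - δ / 2 * (d * Real.log k) := by
          rw [hlam]; ring
      _ ≤ Real.log N := by linarith
      _ ≤ _ := h2
  · -- upper bound
    refine (log_largestI_le (by omega) hk1').trans ?_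
    have h1 : Real.log (2 * k) ≤ 2 * Real.log k := by
      have h2 : (2 * (k : ℝ)) ≤ k ^ 2 := by
        have : (3 : ℝ) ≤ k := by exact_mod_cast hk3
        nlinarith
      have h3 := Real.log_le_log (by positivity) h2
      rwa [Real.log_pow] at h3
    have h2 : Real.log ((k : ℝ) + 2) ≤ Real.log k + 1 := by
      have h3 : Real.log (((k : ℝ) + 2) / k) ≤ ((k : ℝ) + 2) / k - 1 :=
        Real.log_le_sub_one_of_pos (by positivity)
      rw [Real.log_div (by positivity) (by positivity)] at h3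
      have h4 : ((k : ℝ) + 2) / k - 1 ≤ 1 := by
        rw [sub_le_iff_le_add, div_le_iff₀ hkp]
        have : (3 : ℝ) ≤ k := by exact_mod_cast hk3
        linarith
      linarith
    have h3 : 6 / δ ≤ d := by
      have h4 : 6 / δ ≤ ⌈6 / δ⌉₊ := Nat.le_ceil _
      have h5 : ((⌈6 / δ⌉₊ : ℕ) : ℝ) ≤ d := by exact_mod_cast (by omega : ⌈6 / δ⌉₊ ≤ d)
      linarith
    rw [div_le_iff₀ hδ] at h3
    have h4 : 6 * Real.log (2 * q) + 6 * s ≤ δ * Real.log k := by
      have h5 : (16 / δ + 6 * Real.log (2 * q) / δ + 6 * s / δ) * δ ≤ Real.log k * δ :=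
        mul_le_mul_of_nonneg_right hev2 hδ.le
      have h6 : (16 / δ + 6 * Real.log (2 * q) / δ + 6 * s / δ) * δ =
          16 + 6 * Real.log (2 * q) + 6 * s := by field_simp
      rw [h6] at h5
      linarith
    have h5 : (d : ℝ) * (Real.log (2 * q) + s * Real.log (k + 2)) ≤
        d * (Real.log (2 * q) + s * (Real.log k + 1)) := by gcongr
    have h6 : 2 * Real.log k ≤ δ / 3 * d * Real.log k := by nlinarith
    have h7 : (d : ℝ) * (Real.log (2 * q) + s) ≤ d * (δ / 6 * Real.log k) := by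
      refine mul_le_mul_of_nonneg_left ?_ (by positivity)
      linarith
    have h8 : 0 ≤ δ * d * Real.log k := by positivity
    nlinarith

/-- **Order of magnitude.** -/
theorem order (s q : ℕ) (hs : 1 ≤ s) (hq : 2 ≤ q) (δ : ℝ) (hδ : 0 < δ) (hδ1 : δ ≤ 1) :
    ∃ c : ℝ, 0 < c ∧ ∃ k0 : ℕ, ∀ d k : ℕ, k0 ≤ k → 1 ≤ d → (d : ℝ) ≤ (k : ℝ) ^ ((s : ℝ) - δ) →
      c * d * Real.log k ≤ Real.log (largest s q d k) := by
  have hsp : (1 : ℝ) ≤ s := by exact_mod_cast hs
  have hC := Cs_pos s
  set γ : ℝ := s - δ / 2 with hγ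
  have hγ0 : 0 < γ := by rw [hγ]; linarith
  have hγs : γ < s := by rw [hγ]; linarith
  obtain ⟨k0, hk0⟩ := random_real s γ hγ0 hγs
  set c0 : ℝ := δ / (8 * (s + 1)) with hc0
  have hc0p : 0 < c0 := by positivity
  have ev1 : ∀ᶠ k : ℕ in atTop, c0 * (k : ℝ) ^ ((s : ℝ) - δ) * Real.log k ≤
      (k : ℝ) ^ γ / (8 * Cs s) := by
    have h1 := isLittleO_log_rpow_atTop (show (0 : ℝ) < δ / 2 by positivity)
    have h2 := (h1.bound (show (0 : ℝ) < 1 / (c0 * (8 * Cs s)) by positivity))
    have h3 := tendsto_natCast_atTop_atTop (R := ℝ) |>.eventually h2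
    filter_upwards [h3, eventually_ge_atTop 1] with k hk hk1
    have hkp : (0 : ℝ) < k := by exact_mod_cast hk1
    rw [Real.norm_of_nonneg (Real.log_natCast_nonneg k), Real.norm_of_nonneg (by positivity)] at hk
    have h4 : (k : ℝ) ^ γ = (k : ℝ) ^ ((s : ℝ) - δ) * (k : ℝ) ^ (δ / 2) := by
      rw [← Real.rpow_add hkp]; congr 1; rw [hγ]; ring
    rw [h4]
    have h5 : c0 * (k : ℝ) ^ ((s : ℝ) - δ) * Real.log k ≤ c0 * (k : ℝ) ^ ((s : ℝ) - δ) *
        (1 / (c0 * (8 * Cs s)) * (k : ℝ) ^ (δ / 2)) := mul_le_mul_of_nonneg_left hk (by positivity)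
    refine h5.trans (le_of_eq ?_)
    field_simp
  have hlogk : Tendsto (fun k : ℕ => Real.log k) atTop atTop :=
    Real.tendsto_log_atTop.comp tendsto_natCast_atTop_atTop
  have ev2 : ∀ᶠ k : ℕ in atTop, 16 / δ + 2 / c0 ≤ Real.log k := hlogk.eventually_ge_atTop _
  obtain ⟨k1, hk1⟩ := Filter.eventually_atTop.1 (ev1.and ev2)
  refine ⟨c0 / 2, by positivity, max (max k0 k1) 1, ?_⟩
  intro d k hk hd1 hdk
  have hkk0 : k0 ≤ k := le_trans (le_trans (le_max_left _ _) (le_max_left _ _)) hk
  have hkk1 : k1 ≤ k := le_trans (le_trans (le_max_right _ _) (le_max_left _ _)) hk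
  have hk1' : 1 ≤ k := le_trans (le_max_right _ _) hk
  have hkp : (0 : ℝ) < k := by exact_mod_cast hk1'
  have hdp : (1 : ℝ) ≤ d := by exact_mod_cast hd1
  obtain ⟨hev1, hev2⟩ := hk1 k hkk1
  have hlk16 : 16 / δ ≤ Real.log k := by
    have : 0 ≤ 2 / c0 := by positivity
    linarith
  have hlkc : 2 / c0 ≤ Real.log k := by
    have : 0 ≤ 16 / δ := by positivity
    linarith
  have hlkpos : 0 < Real.log k := lt_of_lt_of_le (by positivity) hlk16
  set u : ℕ := (d + 1) / 2 with hu
  set a : ℕ := d + 1 - u with ha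
  have hau : a + u = d + 1 := by omega
  have hau2 : a ≤ u + 1 := by omega
  have ha2 : (d : ℝ) / 2 ≤ a := by
    have h1 : d ≤ 2 * a := by omega
    have h2 : (d : ℝ) ≤ 2 * a := by exact_mod_cast h1
    linarith
  have hu2 : (a : ℝ) ≤ 2 ^ u := by
    have h1 : a ≤ 2 ^ u := le_trans hau2 Nat.lt_two_pow_self
    exact_mod_cast h1
  set N : ℕ := ⌊Real.exp (c0 * d * Real.log k)⌋₊ with hN
  have hexp1 : 1 ≤ Real.exp (c0 * d * Real.log k) := Real.one_le_exp (by positivity)
  have hN1 : 1 ≤ N := (Nat.one_le_floor_iff _).2 hexp1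
  have hNp : (0 : ℝ) < N := by exact_mod_cast hN1
  have hNle : (N : ℝ) ≤ Real.exp (c0 * d * Real.log k) := Nat.floor_le (by positivity)
  have hNge : Real.exp (c0 * d * Real.log k) / 2 ≤ N := by
    have h1 := Nat.lt_floor_add_one (Real.exp (c0 * d * Real.log k))
    have h2 : (1 : ℝ) ≤ N := by exact_mod_cast hN1
    rw [← hN] at h1
    linarith
  have hlogNle : Real.log N ≤ c0 * d * Real.log k := by
    rw [← Real.log_exp (c0 * d * Real.log k)]
    exact Real.log_le_log hNp hNle
  have hlogNge : c0 * d * Real.log k - 1 ≤ Real.log N := by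
    have h1 := Real.log_le_log (by positivity) hNge
    rw [Real.log_div (by positivity) (by norm_num), Real.log_exp] at h1
    have := Real.log_two_lt_d9
    linarith
  have hlogN0 : 0 ≤ Real.log N := Real.log_natCast_nonneg N
  have hgood : Good s q d k N := by
    refine hk0 k hkk0 q hq N a u d hau hN1 ?_ ?_
    · refine hlogNle.trans (le_trans ?_ hev1)
      have h1 : c0 * d ≤ c0 * (k : ℝ) ^ ((s : ℝ) - δ) := mul_le_mul_of_nonneg_left hdk hc0p.le
      exact mul_le_mul_of_nonneg_right h1 hlkpos.le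
    · have h2u : (1 : ℝ) ≤ 2 ^ u := one_le_pow₀ (by norm_num)
      have h1 : (s : ℝ) * a + 2 ^ u ≤ (s + 1) * 2 ^ u := by nlinarith
      have h2 : 16 ≤ Real.log k * δ := by rwa [div_le_iff₀ hδ] at hlk16
      have hsg : (s : ℝ) - γ = δ / 2 := by rw [hγ]; ring
      rw [hsg]
      have h3 : (s + 1) * c0 = δ / 8 := by rw [hc0]; field_simp
      calc ((s : ℝ) * a + 2 ^ u) * Real.log N + 2
          ≤ ((s + 1) * 2 ^ u) * (c0 * d * Real.log k) + 2 := by
            have h5 : ((s : ℝ) * a + 2 ^ u) * Real.log N ≤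
                ((s + 1) * 2 ^ u) * (c0 * d * Real.log k) :=
              mul_le_mul h1 hlogNle hlogN0 (by positivity)
            linarith
        _ = 2 ^ u * ((s + 1) * c0) * d * Real.log k + 2 := by ring
        _ = 2 ^ u * (δ / 8) * d * Real.log k + 2 := by rw [h3]
        _ ≤ 2 ^ u * (δ / 4) * d * Real.log k := by
            have h6 : (2 : ℝ) ≤ 2 ^ u * (δ / 8) * d * Real.log k := by
              have h7 : (1 : ℝ) ≤ 2 ^ u * d := by nlinarith
              have h8 : 2 ≤ δ / 8 * Real.log k := by linarith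
              calc (2 : ℝ) ≤ 1 * (δ / 8 * Real.log k) := by linarith
                _ ≤ (2 ^ u * d) * (δ / 8 * Real.log k) :=
                    mul_le_mul_of_nonneg_right h7 (by positivity)
                _ = _ := by ring
            nlinarith
        _ = (d / 2) * 2 ^ u * (δ / 2 * Real.log k) := by ring
        _ ≤ a * 2 ^ u * (δ / 2 * Real.log k) := by gcongr
  have h1 : (N : ℝ) ≤ largest s q d k := by exact_mod_cast le_largest hgood
  have h2 := Real.log_le_log hNp h1
  have h3 : 1 ≤ c0 / 2 * (d * Real.log k) := by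
    rw [div_le_iff₀ hc0p] at hlkc
    nlinarith
  calc c0 / 2 * d * Real.log k = c0 * d * Real.log k - c0 / 2 * (d * Real.log k) := by ring
    _ ≤ Real.log N := by linarith
    _ ≤ _ := h2

end Pool.Agent.H40.HL
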