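import Pool.Agent.H40.HL.Upper
import Pool.Graph.R_pool_sql_team_seeded_3997aac3.Q216.TI.Frozen

/-!
# The question is a question on Littlestone dimensions
-/

namespace Pool.Agent.H40.HL

open Finset Filter Pool.Agent.TH138.NF Pool.Agent.Q216.TI

/-- In uniformity `s + 3` there are two-colourings without one-coloured `n`-set which have an internal
tree of depth `tow (s + 1) (ε n)`. -/
def DimI (s : ℕ) : Prop :=
  ∃ ε : ℝ, 0 < ε ∧ ∃ n₀ : ℕ, ∀ n : ℕ, n₀ ≤ n → ∃ (N t : ℕ) (c : Finset (Fin N) → Bool),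
    NoMono (s + 2) c n ∧ tow (s + 1) (ε * n) ≤ t ∧
      ITree (s + 2) c t (Finset.univ : Finset (Fin N))

/-- In uniformity `s + 3` there are two-colourings without one-coloured `n`-set which have
Littlestone dimension at least `tow (s + 1) (ε n)`. -/
def DimT (s : ℕ) : Prop :=
  ∃ ε : ℝ, 0 < ε ∧ ∃ n₀ : ℕ, ∀ n : ℕ, n₀ ≤ n → ∃ (N t : ℕ) (c : Finset (Fin N) → Bool),
    NoMono (s + 2) c n ∧ tow (s + 1) (ε * n) ≤ t ∧
      Tree (s + 2) c t (Finset.univ : Finset (Fin N))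

theorem DimI.dimT {s : ℕ} (h : DimI s) : DimT s := by
  obtain ⟨ε, hε, n₀, h⟩ := h
  refine ⟨ε, hε, n₀, fun n hn => ?_⟩
  obtain ⟨N, t, c, h1, h2, h3⟩ := h n hn
  exact ⟨N, t, c, h1, h2, h3.tree⟩

theorem not_ram_iff {N s n : ℕ} : ¬ Ram N (s + 3) n ↔
    ∃ c : Finset (Fin N) → Bool, NoMono (s + 2) c n := by
  rw [← ram_iff]
  push Not
  constructor
  · rintro ⟨c, hc⟩
    refine ⟨c, ?_⟩
    rintro K hK ⟨b, hb⟩
    obtain ⟨e, he1, he2, he3⟩ := hc K hK b
    exact he3 (hb e he1 he2)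
  · rintro ⟨c, hc⟩
    refine ⟨c, ?_⟩
    intro S hS b
    by_contra hcon
    push Not at hcon
    exact hc S hS ⟨b, fun g hg hgc => hcon g hg hgc⟩

theorem DimT.lower {s : ℕ} (h : DimT s) : Lower (s + 2) := by
  obtain ⟨ε, hε, n₀, h⟩ := h
  refine ⟨ε, hε, n₀, fun n hn => ?_⟩
  obtain ⟨N, t, c, h1, h2, h3⟩ := h n hn
  refine ⟨N, ?_, not_ram_iff.2 ⟨c, h1⟩⟩
  have h4 := h3.two_pow_le
  rw [Finset.card_univ, Fintype.card_fin] at h4
  have h5 : ((2 : ℝ)) ^ t ≤ N := by exact_mod_cast h4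
  refine le_trans ?_ h5
  change (2 : ℝ) ^ tow (s + 1) (ε * n) ≤ 2 ^ t
  rw [← Real.rpow_natCast]
  exact Real.rpow_le_rpow_of_exponent_le (by norm_num) h2

theorem one_le_tow' (k : ℕ) {x : ℝ} (hx : 1 ≤ x) : 1 ≤ tow k x := by
  cases k with
  | zero => exact hx
  | succ k => exact Real.one_le_rpow (by norm_num) (tow_nonneg k (by linarith))

theorem add_one_le_two_rpow {y : ℝ} (hy : 1 ≤ y) : y + 1 ≤ 2 ^ y := by
  have h := one_add_mul_self_le_rpow_one_add (show (-1 : ℝ) ≤ 1 by norm_num) hy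
  have h2 : (1 : ℝ) + 1 = 2 := by norm_num
  rw [h2] at h
  linarith

theorem tow_gap' (k : ℕ) {x : ℝ} (hx : 2 ≤ x) : tow k (x / 2) + x / 2 ≤ tow k x := by
  induction k with
  | zero => simp only [tow]; linarith
  | succ k ih =>
    have hb : 1 ≤ tow k (x / 2) := one_le_tow' k (by linarith)
    have h1 : (2 : ℝ) ^ (tow k (x / 2) + x / 2) ≤ 2 ^ tow k x :=
      Real.rpow_le_rpow_of_exponent_le (by norm_num) ih
    rw [Real.rpow_add (by norm_num)] at h1
    have h2 : x / 2 + 1 ≤ (2 : ℝ) ^ (x / 2) := add_one_le_two_rpow (by linarith)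
    have h3 : (2 : ℝ) ≤ 2 ^ tow k (x / 2) := by
      calc (2 : ℝ) = 2 ^ (1 : ℝ) := by norm_num
        _ ≤ _ := Real.rpow_le_rpow_of_exponent_le (by norm_num) hb
    change (2 : ℝ) ^ tow k (x / 2) + x / 2 ≤ 2 ^ tow k x
    nlinarith

theorem tow_mul (k : ℕ) {x : ℝ} (hx : 2 ≤ x) :
    2 ^ (x / 2) * tow (k + 1) (x / 2) ≤ tow (k + 1) x := by
  have h1 := tow_gap' k hx
  have h2 : (2 : ℝ) ^ (tow k (x / 2) + x / 2) ≤ 2 ^ tow k x :=
    Real.rpow_le_rpow_of_exponent_le (by norm_num) h1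
  rw [Real.rpow_add (by norm_num)] at h2
  change (2 : ℝ) ^ (x / 2) * 2 ^ tow k (x / 2) ≤ 2 ^ tow k x
  linarith

theorem dimI_of_lower {s : ℕ} (h : Lower (s + 2)) : DimI s := by
  obtain ⟨ε, hε, n₀, h⟩ := h
  -- the factor
  have hl2 : 0 < Real.log 2 := Real.log_pos (by norm_num)
  have ev : ∀ᶠ n : ℕ in atTop, 2 * ((Real.log 4 + (s + 2) * Real.log (n + 2)) / Real.log 2) ≤
      (2 : ℝ) ^ (ε * n / 2) := by
    have h1 : ∀ᶠ n : ℕ in atTop, 2 * ((Real.log 4 + (s + 2) * Real.log (n + 2)) / Real.log 2) ≤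
        (ε * Real.log 2 / 2) * n := by
      have h2 := (Real.isLittleO_log_id_atTop.bound
        (show (0 : ℝ) < ε * Real.log 2 ^ 2 / (8 * (s + 2)) by positivity))
      have h3 : Tendsto (fun n : ℕ => (n : ℝ) + 2) atTop atTop :=
        tendsto_atTop_add_const_right _ _ tendsto_natCast_atTop_atTop
      have h4 := h3.eventually h2
      filter_upwards [h4, eventually_ge_atTop (⌈(16 * Real.log 4) / (ε * Real.log 2 ^ 2)⌉₊ + 4)]
        with n hn hn2
      have hn3 : (16 * Real.log 4) / (ε * Real.log 2 ^ 2) + 4 ≤ n := by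
        have h5 := Nat.le_ceil ((16 * Real.log 4) / (ε * Real.log 2 ^ 2))
        have h6 : ((⌈(16 * Real.log 4) / (ε * Real.log 2 ^ 2)⌉₊ : ℕ) : ℝ) + 4 ≤ n := by
          exact_mod_cast hn2
        linarith
      have hlog : 0 ≤ Real.log ((n : ℝ) + 2) := Real.log_nonneg (by
        have : (0 : ℝ) ≤ n := by positivity
        linarith)
      rw [Real.norm_of_nonneg hlog] at hn
      simp only [id] at hn
      rw [Real.norm_of_nonneg (by positivity)] at hn
      have h4p : 0 < Real.log 4 := Real.log_pos (by norm_num)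
      have hq : 0 ≤ (16 * Real.log 4) / (ε * Real.log 2 ^ 2) := by positivity
      have hn4 : (4 : ℝ) ≤ n := by linarith
      have h5 : (s + 2) * Real.log ((n : ℝ) + 2) ≤ ε * Real.log 2 ^ 2 / 8 * (n + 2) := by
        have h6 : ((s : ℝ) + 2) * Real.log ((n : ℝ) + 2) ≤
            (s + 2) * (ε * Real.log 2 ^ 2 / (8 * (s + 2)) * (n + 2)) :=
          mul_le_mul_of_nonneg_left hn (by positivity)
        refine h6.trans (le_of_eq ?_)
        field_simp
      have h6 : 16 * Real.log 4 ≤ (ε * Real.log 2 ^ 2) * n := by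
        have h7 : (16 * Real.log 4) / (ε * Real.log 2 ^ 2) ≤ n := by linarith
        rw [div_le_iff₀ (by positivity)] at h7
        linarith
      rw [← mul_div_assoc, div_le_iff₀ hl2]
      have h8 : 0 < ε * Real.log 2 ^ 2 := by positivity
      have h9 : ε * Real.log 2 ^ 2 * 4 ≤ ε * Real.log 2 ^ 2 * n :=
        mul_le_mul_of_nonneg_left hn4 h8.le
      have h10 : ε * Real.log 2 / 2 * n * Real.log 2 = ε * Real.log 2 ^ 2 * n / 2 := by ring
      rw [h10]
      linarith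
    filter_upwards [h1, eventually_ge_atTop 0] with n hn _
    refine hn.trans ?_
    have h2 : ε * Real.log 2 / 2 * n + 1 ≤ Real.exp (ε * Real.log 2 / 2 * n) :=
      Real.add_one_le_exp _
    have h3 : (2 : ℝ) ^ (ε * n / 2) = Real.exp (ε * Real.log 2 / 2 * n) := by
      rw [Real.rpow_def_of_pos (by norm_num)]; congr 1; ring
    rw [h3]; linarith
  obtain ⟨n1, hn1⟩ := Filter.eventually_atTop.1 ev
  refine ⟨ε / 2, by positivity, max (max n₀ n1) (⌈2 / ε⌉₊ + 1), fun n hn => ?_⟩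
  have hnn0 : n₀ ≤ n := le_trans (le_trans (le_max_left _ _) (le_max_left _ _)) hn
  have hnn1 : n1 ≤ n := le_trans (le_trans (le_max_right _ _) (le_max_left _ _)) hn
  have hn2 : ⌈2 / ε⌉₊ + 1 ≤ n := le_trans (le_max_right _ _) hn
  have hx : 2 ≤ ε * n := by
    have h1 : 2 / ε ≤ n := (Nat.le_ceil _).trans (by exact_mod_cast (by omega : ⌈2 / ε⌉₊ ≤ n))
    rw [div_le_iff₀ hε] at h1
    linarith
  obtain ⟨N, hN, hR⟩ := h n hnn0
  obtain ⟨c, hc⟩ := not_ram_iff.1 hR
  have hNpos : 0 < N := by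
    have h1 : 1 ≤ tow (s + 2) (ε * n) := one_le_tow' _ (by linarith)
    have h2 : (1 : ℝ) ≤ N := h1.trans hN
    exact_mod_cast h2
  have hne : (Finset.univ : Finset (Fin N)).Nonempty :=
    ⟨⟨0, hNpos⟩, Finset.mem_univ _⟩
  refine ⟨N, dim (s + 2) c Finset.univ, c, hc, ?_, itree_dim hne⟩
  set D := dim (s + 2) c (Finset.univ : Finset (Fin N)) with hD
  have hnot : ¬ ITree (s + 2) c (D + 1) (Finset.univ : Finset (Fin N)) := by
    intro h1
    have := h1.le_dim
    omega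
  have hup := upper hnot hc
  rw [Fintype.card_fin, Fintype.card_bool] at hup
  have hA : (N : ℝ) ≤ (4 * ((n : ℝ) + 2) ^ (s + 2)) ^ (D + 1) := by
    have h1 : (N : ℝ) ≤ 2 * n * (2 * 2 * ((n : ℝ) + 2) ^ (s + 2)) ^ D := by
      exact_mod_cast hup.le
    have h2 : (1 : ℝ) ≤ ((n : ℝ) + 2) ^ (s + 1) := one_le_pow₀ (by
      have : (0 : ℝ) ≤ n := by positivity
      linarith)
    have h3 : (2 : ℝ) * n ≤ 4 * ((n : ℝ) + 2) ^ (s + 2) := by
      rw [pow_succ]
      have h4 : (n : ℝ) + 2 ≤ ((n : ℝ) + 2) ^ (s + 1) * (n + 2) := by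
        have : (0 : ℝ) ≤ (n : ℝ) + 2 := by positivity
        nlinarith
      have : (0 : ℝ) ≤ n := by positivity
      linarith
    have h5 : (2 * 2 * ((n : ℝ) + 2) ^ (s + 2)) = 4 * ((n : ℝ) + 2) ^ (s + 2) := by ring
    rw [h5] at h1
    calc (N : ℝ) ≤ 2 * n * (4 * ((n : ℝ) + 2) ^ (s + 2)) ^ D := h1
      _ ≤ (4 * ((n : ℝ) + 2) ^ (s + 2)) * (4 * ((n : ℝ) + 2) ^ (s + 2)) ^ D :=
          mul_le_mul_of_nonneg_right h3 (by positivity)
      _ = _ := by rw [pow_succ]; ring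
  have hlog : tow (s + 1) (ε * n) * Real.log 2 ≤
      (D + 1) * (Real.log 4 + (s + 2) * Real.log (n + 2)) := by
    have h1 : (2 : ℝ) ^ tow (s + 1) (ε * n) ≤ (4 * ((n : ℝ) + 2) ^ (s + 2)) ^ (D + 1) :=
      le_trans hN hA
    have h2 := Real.log_le_log (by positivity) h1
    rw [Real.log_rpow (by norm_num), Real.log_pow, Real.log_mul (by norm_num) (by positivity),
      Real.log_pow] at h2
    push_cast at h2
    exact h2
  set A : ℝ := (Real.log 4 + (s + 2) * Real.log (n + 2)) / Real.log 2 with hAdef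
  have hApos : 0 < A := by
    have h1 : 0 < Real.log 4 := Real.log_pos (by norm_num)
    have h2 : 0 ≤ Real.log ((n : ℝ) + 2) := Real.log_nonneg (by
      have : (0 : ℝ) ≤ n := by positivity
      linarith)
    positivity
  have h1 : tow (s + 1) (ε * n) ≤ (D + 1) * A := by
    rw [hAdef, ← mul_div_assoc, le_div_iff₀ hl2]
    exact hlog
  have h2 := tow_mul s hx
  have h3 := hn1 n hnn1
  have h4 : 1 ≤ tow (s + 1) (ε * n / 2) := one_le_tow' _ (by linarith)
  have h5 : 2 * A * tow (s + 1) (ε * n / 2) ≤ (D + 1) * A := by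
    calc 2 * A * tow (s + 1) (ε * n / 2) ≤ 2 ^ (ε * n / 2) * tow (s + 1) (ε * n / 2) :=
          mul_le_mul_of_nonneg_right h3 (by linarith)
      _ ≤ _ := h2.trans h1
  have h6 : 2 * tow (s + 1) (ε * n / 2) ≤ D + 1 := by
    have h7 : (2 * tow (s + 1) (ε * n / 2)) * A ≤ (D + 1) * A := by linarith
    exact le_of_mul_le_mul_right h7 hApos
  have h7 : ε / 2 * n = ε * n / 2 := by ring
  rw [h7]
  linarith

theorem question_iff_dimI (s : ℕ) : Question ↔ DimI s := by
  constructor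
  · intro h
    exact dimI_of_lower (lower_iterate (lower_of_question h))
  · intro h
    exact question_of_lower (fun s' => lower_iterate (lower_two h.dimT.lower))

theorem question_iff_dimT (s : ℕ) : Question ↔ DimT s := by
  constructor
  · intro h
    exact ((question_iff_dimI s).1 h).dimT
  · intro h
    exact question_of_lower (fun s' => lower_iterate (lower_two h.lower))

end Pool.Agent.H40.HL
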