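import Pool.Agent.H40.HL.Defs

/-!
# Colourings of small Littlestone dimension have large one-coloured sets
-/

namespace Pool.Agent.H40.HL

open Finset

variable {V κ : Type*} [DecidableEq V] [DecidableEq κ]

/-- A nonempty set of vertices for which the number of vertices is large in comparison with the
dimension, and all subsets of smaller dimension are much smaller. -/
theorem exists_good [Fintype V] [Nonempty V] {s d W : ℕ} (hW : 1 ≤ W) {c : Finset V → κ}
    (hd : ¬ ITree s c (d + 1) (Finset.univ : Finset V)) :
    ∃ S : Finset V, S.Nonempty ∧ Fintype.card V ≤ S.card * W ^ d ∧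
      ∀ P : Finset V, P.Nonempty → dim s c P < dim s c S → P.card * W ≤ S.card := by
  classical
  have hdim : ∀ S : Finset V, S.Nonempty → dim s c S ≤ d := by
    intro S hS
    by_contra hcon
    push Not at hcon
    exact hd (((itree_dim hS).anti hcon).mono (Finset.subset_univ S))
  obtain ⟨S, hS1, hS2⟩ := Finset.exists_max_image
    ((Finset.univ : Finset (Finset V)).filter (fun S => S.Nonempty))
    (fun S => S.card * W ^ (d - dim s c S))
    ⟨Finset.univ, by simp⟩
  have hSne : S.Nonempty := (Finset.mem_filter.mp hS1).2
  refine ⟨S, hSne, ?_, ?_⟩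
  · have h1 := hS2 Finset.univ (by simp)
    have h2 : (Finset.univ : Finset V).card ≤
        (Finset.univ : Finset V).card * W ^ (d - dim s c Finset.univ) :=
      Nat.le_mul_of_pos_right _ (by positivity)
    have h3 : S.card * W ^ (d - dim s c S) ≤ S.card * W ^ d :=
      Nat.mul_le_mul_left _ (Nat.pow_le_pow_right hW (Nat.sub_le _ _))
    have h4 : Fintype.card V = (Finset.univ : Finset V).card := (Finset.card_univ).symm
    rw [h4]
    exact h2.trans (h1.trans h3)
  · intro P hP hlt
    have h1 : P.card * W ^ (d - dim s c P) ≤ S.card * W ^ (d - dim s c S) :=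
      hS2 P (by simp [hP])
    have h2 := hdim S hSne
    have h3 : P.card * W ^ (d - dim s c S + 1) ≤ P.card * W ^ (d - dim s c P) :=
      Nat.mul_le_mul_left _ (Nat.pow_le_pow_right hW (by omega))
    have h4 : P.card * W * W ^ (d - dim s c S) ≤ S.card * W ^ (d - dim s c S) := by
      calc P.card * W * W ^ (d - dim s c S) = P.card * W ^ (d - dim s c S + 1) := by ring
        _ ≤ _ := h3.trans h1
    exact Nat.le_of_mul_le_mul_right h4 (by positivity)

/-- In a good set every `s`-set has a dominating colour. -/
theorem majority [Fintype κ] {s W : ℕ} {c : Finset V → κ} {S : Finset V}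
    (hgood : ∀ P : Finset V, P.Nonempty → dim s c P < dim s c S → P.card * W ≤ S.card)
    {e : Finset V} (heS : e ⊆ S) (he : e.card = s) :
    ∃ h : κ, (S.filter (fun x => x ∉ e ∧ c (insert x e) ≠ h)).card * W
      ≤ Fintype.card κ * S.card := by
  classical
  have key : ∀ (T : Finset κ) (h : κ), (∀ a ∉ T, a = h) →
      (∀ a ∈ T, (part c S e a).card * W ≤ S.card) →
      (S.filter (fun x => x ∉ e ∧ c (insert x e) ≠ h)).card * W ≤ Fintype.card κ * S.card := by
    intro T h hT hT2
    have h1 : S.filter (fun x => x ∉ e ∧ c (insert x e) ≠ h) ⊆ T.biUnion (fun a => part c S e a) := by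
      intro x hx
      simp only [Finset.mem_filter] at hx
      rw [Finset.mem_biUnion]
      refine ⟨c (insert x e), ?_, ?_⟩
      · by_contra hcon
        exact hx.2.2 (hT _ hcon)
      · simp [part, hx.1, hx.2.1]
    have h2 := (Finset.card_le_card h1).trans Finset.card_biUnion_le
    calc (S.filter (fun x => x ∉ e ∧ c (insert x e) ≠ h)).card * W
        ≤ (∑ a ∈ T, (part c S e a).card) * W := Nat.mul_le_mul_right _ h2
      _ = ∑ a ∈ T, (part c S e a).card * W := Finset.sum_mul _ _ _
      _ ≤ ∑ a ∈ T, S.card := Finset.sum_le_sum hT2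
      _ = T.card * S.card := by simp
      _ ≤ Fintype.card κ * S.card := Nat.mul_le_mul_right _ (Finset.card_le_univ T)
  by_cases hex : ∃ h : κ, (part c S e h).Nonempty ∧ dim s c S ≤ dim s c (part c S e h)
  · obtain ⟨h, hne, hh⟩ := hex
    refine ⟨h, key (Finset.univ.erase h) h ?_ ?_⟩
    · intro a ha
      by_contra hcon
      exact ha (Finset.mem_erase.mpr ⟨hcon, Finset.mem_univ _⟩)
    · intro a ha
      rw [Finset.mem_erase] at ha
      rcases Finset.eq_empty_or_nonempty (part c S e a) with h0 | h0
      · simp [h0]
      · rcases dim_lt_of_part heS he ha.1 h0 hne with h1 | h1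
        · exact hgood _ h0 h1
        · omega
  · push Not at hex
    refine ⟨c e, key Finset.univ (c e) (fun a ha => absurd (Finset.mem_univ a) ha) ?_⟩
    intro a _
    rcases Finset.eq_empty_or_nonempty (part c S e a) with h0 | h0
    · simp [h0]
    · exact hgood _ h0 (hex a h0)

/-- From the majority colours of the sets with one more element to those of the `j`-sets. -/
theorem step {F G : Finset V → κ} {S : Finset V} {j b : ℕ}
    (h : ∀ f ⊆ S, f.card = j + 1 →
      (S.filter (fun x => x ∉ f ∧ F (insert x f) ≠ G f)).card ≤ b)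
    {f : Finset V} (hf : f ⊆ S) (hfj : f.card = j) :
    ∃ a : κ, (S.filter (fun x => x ∉ f ∧ G (insert x f) ≠ a)).card ≤ 2 * b := by
  classical
  set T := S \ f with hT
  rcases Finset.eq_empty_or_nonempty T with h0 | h0
  · refine ⟨G f, ?_⟩
    have : S.filter (fun x => x ∉ f ∧ G (insert x f) ≠ G f) = ∅ := by
      rw [Finset.filter_eq_empty_iff]
      intro x hx hcon
      have : x ∈ T := Finset.mem_sdiff.mpr ⟨hx, hcon.1⟩
      rw [h0] at this
      simp at this
    rw [this]; simp
  · by_contra hcon
    push Not at hcon
    -- the pairs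
    have hbad : ∀ z ∈ T, (T.filter (fun x => x ≠ z ∧ F (insert x (insert z f)) ≠
        G (insert z f))).card ≤ b := by
      intro z hz
      rw [hT, Finset.mem_sdiff] at hz
      refine le_trans (Finset.card_le_card ?_) (h (insert z f) ?_ ?_)
      · intro x hx
        simp only [hT, Finset.mem_filter, Finset.mem_sdiff] at hx
        simp only [Finset.mem_filter, Finset.mem_insert, not_or]
        exact ⟨hx.1.1, ⟨hx.2.1, hx.1.2⟩, hx.2.2⟩
      · intro x hx
        rw [Finset.mem_insert] at hx
        rcases hx with rfl | hx
        · exact hz.1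
        · exact hf hx
      · rw [Finset.card_insert_of_notMem hz.2, hfj]
    have hsum1 : ∑ x ∈ T, (T.filter (fun z => G (insert z f) ≠ G (insert x f))).card
        ≤ 2 * b * T.card := by
      have hle : ∀ x ∈ T, (T.filter (fun z => G (insert z f) ≠ G (insert x f))).card ≤
          (T.filter (fun z => z ≠ x ∧ F (insert z (insert x f)) ≠ G (insert x f))).card +
          (T.filter (fun z => x ≠ z ∧ F (insert x (insert z f)) ≠ G (insert z f))).card := by
        intro x _
        refine le_trans (Finset.card_le_card ?_) (Finset.card_union_le _ _)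
        intro z hz
        simp only [Finset.mem_filter] at hz
        simp only [Finset.mem_union, Finset.mem_filter]
        have hzx : z ≠ x := by
          rintro rfl
          exact hz.2 rfl
        by_cases h1 : F (insert z (insert x f)) = G (insert x f)
        · right
          refine ⟨hz.1, hzx.symm, ?_⟩
          rw [Finset.insert_comm] at h1
          intro h2
          exact hz.2 (h2.symm.trans h1)
        · left
          exact ⟨hz.1, hzx, h1⟩
      have hswap : ∑ x ∈ T, (T.filter (fun z => x ≠ z ∧ F (insert x (insert z f)) ≠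
          G (insert z f))).card = ∑ z ∈ T, (T.filter (fun x => x ≠ z ∧ F (insert x (insert z f)) ≠
          G (insert z f))).card := by
        simp only [Finset.card_filter]
        rw [Finset.sum_comm]
      calc ∑ x ∈ T, (T.filter (fun z => G (insert z f) ≠ G (insert x f))).card
          ≤ ∑ x ∈ T, ((T.filter (fun z => z ≠ x ∧ F (insert z (insert x f)) ≠
              G (insert x f))).card +
            (T.filter (fun z => x ≠ z ∧ F (insert x (insert z f)) ≠ G (insert z f))).card) :=
            Finset.sum_le_sum hle
        _ = ∑ x ∈ T, (T.filter (fun z => z ≠ x ∧ F (insert z (insert x f)) ≠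
              G (insert x f))).card + ∑ z ∈ T, (T.filter (fun x => x ≠ z ∧
              F (insert x (insert z f)) ≠ G (insert z f))).card := by
            rw [Finset.sum_add_distrib, hswap]
        _ ≤ T.card * b + T.card * b := by
            refine Nat.add_le_add ?_ ?_
            · refine le_trans (Finset.sum_le_card_nsmul _ _ b hbad) (by simp)
            · refine le_trans (Finset.sum_le_card_nsmul _ _ b hbad) (by simp)
        _ = 2 * b * T.card := by ring
    have hsum2 : 2 * b * T.card < ∑ x ∈ T, (T.filter (fun z => G (insert z f) ≠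
        G (insert x f))).card := by
      have h1 : ∀ x ∈ T, 2 * b + 1 ≤ (T.filter (fun z => G (insert z f) ≠
          G (insert x f))).card := by
        intro x _
        refine le_trans (hcon (G (insert x f))) (Finset.card_le_card ?_)
        intro z hz
        simp only [Finset.mem_filter] at hz
        simp only [hT, Finset.mem_filter, Finset.mem_sdiff]
        exact ⟨⟨hz.1, hz.2.1⟩, hz.2.2⟩
      have h2 := Finset.card_nsmul_le_sum _ _ _ h1
      have h3 : 0 < T.card := Finset.card_pos.mpr h0
      simp only [smul_eq_mul] at h2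
      nlinarith
    omega

/-- The majority colours of all levels. -/
theorem levels {s b : ℕ} {c : Finset V → κ} {S : Finset V}
    (h : ∀ f ⊆ S, f.card = s →
      ∃ a : κ, (S.filter (fun x => x ∉ f ∧ c (insert x f) ≠ a)).card ≤ b) :
    ∀ i ≤ s, ∃ lev : ℕ → Finset V → κ, lev (s + 1) = c ∧
      ∀ j, s - i ≤ j → j ≤ s → ∀ f ⊆ S, f.card = j →
        (S.filter (fun x => x ∉ f ∧ lev (j + 1) (insert x f) ≠ lev j f)).card
          ≤ 2 ^ (s - j) * b := by
  classical
  have hne : Nonempty κ := ⟨c ∅⟩
  intro i
  induction i with
  | zero =>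
    intro _
    choose! H hH using h
    refine ⟨fun j => if j = s + 1 then c else H, by simp, ?_⟩
    intro j hj1 hj2 f hf hfj
    have : j = s := by omega
    subst this
    simpa using hH f hf hfj
  | succ i ih =>
    intro hi
    obtain ⟨lev, hl1, hl2⟩ := ih (by omega)
    have hst : ∀ f : Finset V, f ⊆ S → f.card = s - (i + 1) → ∃ a : κ,
        (S.filter (fun x => x ∉ f ∧ lev (s - i) (insert x f) ≠ a)).card ≤ 2 * (2 ^ i * b) := by
      intro f hf hfj
      refine step (F := lev (s - i + 1)) (G := lev (s - i)) (j := s - (i + 1)) ?_ hf hfj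
      intro g hg hgj
      have h1 := hl2 (s - i) le_rfl (Nat.sub_le _ _) g hg (by omega)
      have h2 : s - (s - i) = i := by omega
      rwa [h2] at h1
    choose! H hH using hst
    refine ⟨fun j => if j = s - (i + 1) then H else lev j, ?_, ?_⟩
    · have : s + 1 ≠ s - (i + 1) := by omega
      simp [this, hl1]
    · intro j hj1 hj2 f hf hfj
      by_cases hj : j = s - (i + 1)
      · have h1 : j + 1 ≠ s - (i + 1) := by omega
        have h2 : j + 1 = s - i := by omega
        have h3 : s - j = i + 1 := by omega
        have h4 := hH f hf (by omega)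
        simp only [hj, if_true]
        rw [if_neg (by omega)]
        have h5 : s - (i + 1) + 1 = s - i := by omega
        have h6 : s - (s - (i + 1)) = i + 1 := by omega
        rw [h5, h6]
        calc _ ≤ 2 * (2 ^ i * b) := h4
          _ = 2 ^ (i + 1) * b := by ring
      · have h1 : j + 1 ≠ s - (i + 1) := by omega
        simp only [h1, hj, if_false]
        exact hl2 j (by omega) hj2 f hf hfj

theorem sum_choose_le (m s : ℕ) :
    ∑ j ∈ Finset.range (s + 1), m.choose j * 2 ^ (s - j) ≤ (m + 2) ^ s := by
  rw [add_pow]
  refine Finset.sum_le_sum ?_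
  intro j hj
  rw [Finset.mem_range] at hj
  have h1 := Nat.choose_le_pow m j
  have h2 : 1 ≤ s.choose j := Nat.choose_pos (by omega)
  calc m.choose j * 2 ^ (s - j) ≤ m ^ j * 2 ^ (s - j) := Nat.mul_le_mul_right _ h1
    _ = m ^ j * 2 ^ (s - j) * 1 := by ring
    _ ≤ m ^ j * 2 ^ (s - j) * s.choose j := Nat.mul_le_mul_left _ h2

/-- Greedy choice of a one-coloured set. -/
theorem greedy {s k b : ℕ} {c : Finset V → κ} {S : Finset V}
    (h : ∀ f ⊆ S, f.card = s →
      ∃ a : κ, (S.filter (fun x => x ∉ f ∧ c (insert x f) ≠ a)).card ≤ b)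
    (hk : 2 * k ≤ S.card) (hb : 2 * ((k + 2) ^ s * b) ≤ S.card) :
    ∃ K ⊆ S, K.card = k ∧ ∃ a : κ, ∀ g ⊆ K, g.card = s + 1 → c g = a := by
  classical
  obtain ⟨lev, hl1, hl2⟩ := levels h s le_rfl
  have hl3 : ∀ j ≤ s, ∀ f ⊆ S, f.card = j →
        (S.filter (fun x => x ∉ f ∧ lev (j + 1) (insert x f) ≠ lev j f)).card
          ≤ 2 ^ (s - j) * b := fun j hj => hl2 j (by omega) hj
  have main : ∀ m ≤ k, ∃ A ⊆ S, A.card = m ∧ ∀ f ⊆ A, f.card ≤ s + 1 →
      lev f.card f = lev 0 ∅ := by
    intro m
    induction m with
    | zero =>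
      intro _
      refine ⟨∅, by simp, by simp, ?_⟩
      intro f hf _
      have : f = ∅ := Finset.subset_empty.mp hf
      rw [this]; simp
    | succ m ih =>
      intro hm
      obtain ⟨A, hA1, hA2, hA3⟩ := ih (by omega)
      set bad : Finset V := (Finset.range (s + 1)).biUnion (fun j =>
        (Finset.powersetCard j A).biUnion (fun f =>
          S.filter (fun x => x ∉ f ∧ lev (j + 1) (insert x f) ≠ lev j f))) with hbad
      have hcard : bad.card ≤ (m + 2) ^ s * b := by
        calc bad.card ≤ ∑ j ∈ Finset.range (s + 1), ((Finset.powersetCard j A).biUnion (fun f =>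
              S.filter (fun x => x ∉ f ∧ lev (j + 1) (insert x f) ≠ lev j f))).card :=
              Finset.card_biUnion_le
          _ ≤ ∑ j ∈ Finset.range (s + 1), m.choose j * 2 ^ (s - j) * b := by
              refine Finset.sum_le_sum ?_
              intro j hj
              rw [Finset.mem_range] at hj
              refine le_trans Finset.card_biUnion_le ?_
              have h1 : ∀ f ∈ Finset.powersetCard j A, (S.filter (fun x => x ∉ f ∧
                  lev (j + 1) (insert x f) ≠ lev j f)).card ≤ 2 ^ (s - j) * b := by
                intro f hf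
                rw [Finset.mem_powersetCard] at hf
                exact hl3 j (by omega) f (hf.1.trans hA1) hf.2
              refine le_trans (Finset.sum_le_card_nsmul _ _ _ h1) ?_
              rw [Finset.card_powersetCard, hA2, smul_eq_mul]
              exact le_of_eq (by ring)
          _ = (∑ j ∈ Finset.range (s + 1), m.choose j * 2 ^ (s - j)) * b :=
              (Finset.sum_mul _ _ _).symm
          _ ≤ (m + 2) ^ s * b := Nat.mul_le_mul_right _ (sum_choose_le m s)
      have hcard2 : 2 * bad.card ≤ S.card := by
        have h1 : (m + 2) ^ s * b ≤ (k + 2) ^ s * b :=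
          Nat.mul_le_mul_right _ (Nat.pow_le_pow_left (by omega) s)
        omega
      have hex : ∃ v ∈ S, v ∉ bad ∪ A := by
        by_contra hcon
        push Not at hcon
        have h1 : S ⊆ bad ∪ A := fun x hx => hcon x hx
        have h2 := (Finset.card_le_card h1).trans (Finset.card_union_le _ _)
        omega
      obtain ⟨v, hvS, hv⟩ := hex
      rw [Finset.mem_union, not_or] at hv
      refine ⟨insert v A, ?_, ?_, ?_⟩
      · intro x hx
        rw [Finset.mem_insert] at hx
        rcases hx with rfl | hx
        · exact hvS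
        · exact hA1 hx
      · rw [Finset.card_insert_of_notMem hv.2, hA2]
      · intro f hf hfc
        by_cases hvf : v ∈ f
        · have h1 : f.erase v ⊆ A := by
            intro x hx
            rw [Finset.mem_erase] at hx
            have := hf hx.2
            rw [Finset.mem_insert] at this
            exact this.resolve_left hx.1
          have h2 : insert v (f.erase v) = f := Finset.insert_erase hvf
          have h3 : (f.erase v).card + 1 = f.card := Finset.card_erase_add_one hvf
          have h4 : (f.erase v).card ≤ s := by omega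
          have h5 : ¬ (lev ((f.erase v).card + 1) (insert v (f.erase v)) ≠
              lev (f.erase v).card (f.erase v)) := by
            intro hne
            apply hv.1
            rw [hbad, Finset.mem_biUnion]
            refine ⟨(f.erase v).card, Finset.mem_range.mpr (by omega), ?_⟩
            rw [Finset.mem_biUnion]
            refine ⟨f.erase v, Finset.mem_powersetCard.mpr ⟨h1, rfl⟩, ?_⟩
            rw [Finset.mem_filter]
            exact ⟨hvS, Finset.notMem_erase v f, hne⟩
          push Not at h5
          rw [h2, h3] at h5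
          rw [h5]
          exact hA3 _ h1 (by omega)
        · have h1 : f ⊆ A := by
            intro x hx
            have := hf hx
            rw [Finset.mem_insert] at this
            refine this.resolve_left ?_
            rintro rfl
            exact hvf hx
          exact hA3 f h1 hfc
  obtain ⟨A, hA1, hA2, hA3⟩ := main k le_rfl
  refine ⟨A, hA1, hA2, lev 0 ∅, ?_⟩
  intro g hg hgc
  have h1 := hA3 g hg (by omega)
  rw [hgc, hl1] at h1
  exact h1

/-- **Upper bound.** -/
theorem upper [Fintype V] [Fintype κ] {s d k : ℕ} {c : Finset V → κ}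
    (hd : ¬ ITree s c (d + 1) (Finset.univ : Finset V)) (hk : NoMono s c k) :
    Fintype.card V < 2 * k * (2 * Fintype.card κ * (k + 2) ^ s) ^ d := by
  classical
  by_contra hcon
  push Not at hcon
  rcases Nat.eq_zero_or_pos k with hk0 | hk0
  · exact hk ∅ (by simp [hk0]) ⟨c ∅, by
      intro g hg hgc
      rw [Finset.subset_empty.mp hg] at hgc
      simp at hgc⟩
  have hq : 0 < Fintype.card κ := Fintype.card_pos_iff.mpr ⟨c ∅⟩
  have hW : 1 ≤ 2 * Fintype.card κ * (k + 2) ^ s :=
    Nat.one_le_iff_ne_zero.mpr (by positivity)
  have hV : 0 < Fintype.card V := lt_of_lt_of_le (by positivity) hcon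
  haveI : Nonempty V := Fintype.card_pos_iff.mp hV
  obtain ⟨S, hS1, hS2, hS3⟩ := exists_good hW hd
  have hSk : 2 * k ≤ S.card := by
    have h1 : 2 * k * (2 * Fintype.card κ * (k + 2) ^ s) ^ d ≤
        S.card * (2 * Fintype.card κ * (k + 2) ^ s) ^ d := hcon.trans hS2
    exact Nat.le_of_mul_le_mul_right h1 (by positivity)
  have hmaj : ∀ f ⊆ S, f.card = s →
      ∃ a : κ, (S.filter (fun x => x ∉ f ∧ c (insert x f) ≠ a)).card ≤
        S.card / (2 * (k + 2) ^ s) := by
    intro f hfS hf
    obtain ⟨a, ha⟩ := majority hS3 hfS hf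
    refine ⟨a, ?_⟩
    rw [Nat.le_div_iff_mul_le (by positivity)]
    have h1 : (S.filter (fun x => x ∉ f ∧ c (insert x f) ≠ a)).card * (2 * (k + 2) ^ s) *
        Fintype.card κ ≤ S.card * Fintype.card κ := by
      calc _ = (S.filter (fun x => x ∉ f ∧ c (insert x f) ≠ a)).card *
            (2 * Fintype.card κ * (k + 2) ^ s) := by ring
        _ ≤ Fintype.card κ * S.card := ha
        _ = _ := by ring
    exact Nat.le_of_mul_le_mul_right h1 hq
  obtain ⟨K, _, hK2, a, hK3⟩ := greedy (k := k) hmaj hSk (by
    have h1 : 2 * (k + 2) ^ s * (S.card / (2 * (k + 2) ^ s)) ≤ S.card := Nat.mul_div_le _ _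
    calc 2 * ((k + 2) ^ s * (S.card / (2 * (k + 2) ^ s)))
        = 2 * (k + 2) ^ s * (S.card / (2 * (k + 2) ^ s)) := by ring
      _ ≤ _ := h1)
  exact hk K hK2 ⟨a, hK3⟩

end Pool.Agent.H40.HL
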